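import Mathlib
import Pool.Agent.H600.SF.Main
import Pool.Graph.R_pool_sql_team_seeded_3997aac3.Q20.BK.Bkp
import Pool.Graph.R_pool_sql_team_seeded_3997aac3.Q20.TW.Tw0

/-!
# Linear characters of absolute Galois groups: induction from the kernel of a power
-/

set_option autoImplicit false
set_option linter.unusedSectionVars false

namespace Pool.Agent.H600.BF

open NumberField Pool.Agent.Q20
open Pool.Agent.Q20.RS hiding Sub

section grp
variable {G : Type} [Group G]

lemma hpow_mul (φ : G →* ℂˣ) (a b : ℕ) : (φ ^ a) ^ b = φ ^ (a * b) := by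
  apply MonoidHom.ext
  intro u
  rw [MonoidHom.pow_apply, MonoidHom.pow_apply, MonoidHom.pow_apply, pow_mul]

lemma pow_order (φ : G →* ℂˣ) (u : G) : (φ u) ^ orderOf φ = 1 := by
  have h := DFunLike.congr_fun (pow_orderOf_eq_one φ) u
  exact h

lemma hpow_congr (φ : G →* ℂˣ) {a b : ℕ} (h : a ≡ b [MOD orderOf φ]) : φ ^ a = φ ^ b := by
  apply MonoidHom.ext
  intro u
  have h2 : a ≡ b [MOD orderOf (φ u)] := h.of_dvd (orderOf_dvd_of_pow_eq_one (pow_order φ u))
  rw [MonoidHom.pow_apply, MonoidHom.pow_apply]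
  exact pow_eq_pow_iff_modEq.mpr h2

lemma finite_range (χ : G →* ℂˣ) (h : 0 < orderOf χ) : Finite χ.range := by
  have hne : NeZero (orderOf χ) := ⟨h.ne'⟩
  refine Finite.of_injective (β := rootsOfUnity (orderOf χ) ℂ)
    (fun x => ⟨x.1, ?_⟩) ?_
  · obtain ⟨-, g, rfl⟩ := x
    rw [mem_rootsOfUnity]
    exact pow_order χ g
  · intro x y hxy
    have h1 := congrArg Subtype.val hxy
    exact Subtype.ext h1

lemma card_range (χ : G →* ℂˣ) (h : 0 < orderOf χ) : Nat.card χ.range = orderOf χ := by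
  have hfin : Finite χ.range := finite_range χ h
  have hcyc : IsCyclic χ.range := isCyclic_subgroup_units χ.range
  rw [← IsCyclic.exponent_eq_card]
  apply Nat.dvd_antisymm
  · rw [Monoid.exponent_dvd_iff_forall_pow_eq_one]
    rintro ⟨x, g, rfl⟩
    apply Subtype.ext
    exact pow_order χ g
  · apply orderOf_dvd_of_pow_eq_one
    ext g
    have h1 : (⟨χ g, g, rfl⟩ : χ.range) ^ Monoid.exponent χ.range = 1 := Monoid.pow_exponent_eq_one _
    have h2 := congrArg (fun x : χ.range => ((x : ℂˣ) : ℂ)) h1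
    exact h2

/-- The permutation character of the kernel of a linear character. -/
lemma fix_ker (χ : G →* ℂˣ) (h : 0 < orderOf χ) (u : G) :
    Pool.Agent.Q20.EX.Dih.fix χ.ker u = ∑ j ∈ Finset.range (orderOf χ), ((χ u : ℂˣ) : ℂ) ^ j := by
  classical
  have hfr : Finite χ.range := finite_range χ h
  have hfin : Finite (G ⧸ χ.ker) :=
    Finite.of_equiv _ (QuotientGroup.quotientKerEquivRange χ).toEquiv.symm
  have hft : Fintype (G ⧸ χ.ker) := Fintype.ofFinite _
  have hc : ∀ x : G, x⁻¹ * u * x ∈ χ.ker ↔ u ∈ χ.ker := by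
    intro x
    rw [MonoidHom.mem_ker, MonoidHom.mem_ker, map_mul, map_mul, map_inv, mul_comm (χ x)⁻¹,
      mul_assoc, inv_mul_cancel, mul_one]
  unfold Pool.Agent.Q20.EX.Dih.fix
  by_cases hu : u ∈ χ.ker
  · have h2 : Fintype.card (G ⧸ χ.ker) = orderOf χ := by
      rw [← Nat.card_eq_fintype_card, ← card_range χ h, ← Subgroup.index_ker]
      rfl
    have h3 : χ u = 1 := MonoidHom.mem_ker.1 hu
    rw [finsum_eq_sum_of_fintype]
    refine (Finset.sum_congr rfl fun x _ => ?_).trans
      ((Finset.sum_const (1 : ℂ)).trans ?_)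
    · exact if_pos ((hc _).2 hu)
    · rw [Finset.card_univ, h2, h3]
      simp
  · have h3 : χ u ≠ 1 := fun h1 => hu (MonoidHom.mem_ker.2 h1)
    rw [finsum_eq_sum_of_fintype]
    refine (Finset.sum_eq_zero fun x _ => ?_).trans ?_
    · exact if_neg fun h1 => hu ((hc _).1 h1)
    · have h4 : ((χ u : ℂˣ) : ℂ) ≠ 1 := fun h2 => h3 (Units.ext h2)
      have h5 : ((χ u : ℂˣ) : ℂ) ^ orderOf χ = 1 := by
        have h6 := congrArg (fun x : ℂˣ => (x : ℂ)) (pow_order χ u)
        exact h6
      have h6 := geom_sum_mul ((χ u : ℂˣ) : ℂ) (orderOf χ)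
      rw [h5, sub_self] at h6
      rcases mul_eq_zero.mp h6 with h7 | h7
      · exact h7.symm
      · exact absurd (sub_eq_zero.mp h7) h4

end grp

section
variable {K : Type} [Field K] [NumberField K]

/-- smooth linear characters have finite order -/
lemma order_pos {F : RS.Sub K} (ψ : Lin F) : 0 < orderOf ψ.hom := by
  obtain ⟨E, hE, hs⟩ := ψ.smooth
  have hfd : FiniteDimensional K E := hE
  have h1 := Pool.Agent.Q246.BI.fin_index E
  let U : Subgroup (GalF F) := E.fixingSubgroup.subgroupOf F.fixingSubgroup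
  have h2 : U.FiniteIndex := inferInstance
  have h3 : U.normalCore.FiniteIndex := inferInstance
  let Q : Type := GalF F ⧸ U.normalCore
  have h4 : Finite Q := Subgroup.finite_quotient_of_finiteIndex
  have key : ∀ g : GalF F, g ^ Nat.card Q ∈ U := by
    intro g
    have h6 : ((g : Q)) ^ Nat.card Q = 1 := pow_card_eq_one'
    rw [← QuotientGroup.mk_pow, QuotientGroup.eq_one_iff] at h6
    exact U.normalCore_le h6
  rw [orderOf_pos_iff, isOfFinOrder_iff_pow_eq_one]
  refine ⟨Nat.card Q, Nat.card_pos, ?_⟩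
  apply MonoidHom.ext
  intro g
  rw [MonoidHom.pow_apply, ← map_pow]
  exact hs _ (key g)

/-- powers of linear characters -/
noncomputable def lpow {F : RS.Sub K} (ψ : Lin F) (b : ℕ) : Lin F where
  hom := ψ.hom ^ b
  smooth := by
    obtain ⟨E, hE, hs⟩ := ψ.smooth
    exact ⟨E, hE, fun g hg => by rw [MonoidHom.pow_apply, hs g hg, one_pow]⟩

/-- restriction of linear characters -/
noncomputable def lres {F F' : RS.Sub K} (h : F ≤ F') (ψ : Lin F) : Lin F' where
  hom := RL.TW.resL h ψ.hom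
  smooth := by
    obtain ⟨E, hE, hs⟩ := ψ.smooth
    exact ⟨E, hE, fun g hg => hs _ hg⟩

lemma cl_pow {M : ℕ} {S : Finset ℕ} {L F : RS.Sub K} {ψ : Lin F} (h : ClassGroup M S L ψ)
    (b : ℕ) : ClassGroup M S L (lpow ψ b) where
  complex := h.complex
  degree := h.degree
  inertia := fun p hp w hw g hg => by
    change (ψ.hom ^ b) g = 1
    rw [MonoidHom.pow_apply, h.inertia p hp w hw g hg, one_pow]
  split := fun p hS hp w hw g hg => by
    change (ψ.hom ^ b) g = 1
    rw [MonoidHom.pow_apply, h.split p hS hp w hw g hg, one_pow]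
  completion := h.completion

lemma cl_res {M : ℕ} {S : Finset ℕ} {L F F' : RS.Sub K} {ψ : Lin F} (h : ClassGroup M S L ψ)
    (hF' : FinExt F') (hle : F ≤ F') : ClassGroup M S L (lres hle ψ) where
  complex := ⟨fun τ => h.complex.false
    (τ.comp (IntermediateField.inclusion hle : F →ₐ[K] F').toRingHom)⟩
  degree := by
    have hfd : FiniteDimensional K F' := hF'
    exact h.degree.trans (IntermediateField.finrank_dvd_of_le_right hle)
  inertia := fun p hp w hw g hg => h.inertia p hp w hw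
    ⟨g, IntermediateField.fixingSubgroup_antitone hle g.2⟩ hg
  split := fun p hS hp w hw g hg => h.split p hS hp w hw
    ⟨g, IntermediateField.fixingSubgroup_antitone hle g.2⟩ hg
  completion := fun p hS hp w hw g hg hd =>
    h.completion p hS hp w hw g (IntermediateField.fixingSubgroup_antitone hle hg) hd

/-- The restriction of `ψ` to the kernel of `ψ ^ g`, induced back. -/
theorem exists_rel {F : RS.Sub K} (hF : FinExt F) (ψ : Lin F) {g k : ℕ} (hg : g ≠ 0)
    (hgk : g * k = orderOf ψ.hom) :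
    ∃ (F' : RS.Sub K) (h : F ≤ F'), FinExt F' ∧ (lres h ψ).hom ^ g = 1 ∧
      ∀ u, ind F F' (lres h ψ).fn u
        = ∑ j ∈ Finset.range k, ((ψ.hom u : ℂˣ) : ℂ) ^ (1 + g * j) := by
  obtain ⟨E, hE, hs⟩ := ψ.smooth
  have hFd : FiniteDimensional K F := hF
  have hEd : FiniteDimensional K E := hE
  have hk : orderOf (ψ.hom ^ g) = k := by
    rw [orderOf_pow_of_dvd hg (Dvd.intro k hgk), ← hgk,
      Nat.mul_div_cancel_left _ (Nat.pos_of_ne_zero hg)]
  have hk0 : 0 < orderOf (ψ.hom ^ g) := by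
    rw [hk]
    rcases Nat.eq_zero_or_pos k with h | h
    · have h1 := order_pos ψ
      rw [← hgk, h, mul_zero] at h1
      exact absurd h1 (lt_irrefl 0)
    · exact h
  obtain ⟨F', hle, -, hF', hm⟩ := RL.TW.exists_fld (F := F) (ψ.hom ^ g).ker (F ⊔ E)
    (IntermediateField.finiteDimensional_sup F E) le_sup_left (fun x hx => by
      rw [MonoidHom.mem_ker, MonoidHom.pow_apply,
        hs x (IntermediateField.fixingSubgroup_antitone le_sup_right hx), one_pow])
  refine ⟨F', hle, hF', ?_, fun u => ?_⟩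
  · apply MonoidHom.ext
    intro y
    obtain ⟨h1, h2⟩ := (hm y).1 y.2
    exact MonoidHom.mem_ker.1 h2
  · have h1 := RL.TW.ind_resL hle ψ.hom u
    have h2 : F'.fixingSubgroup.subgroupOf F.fixingSubgroup = (ψ.hom ^ g).ker := by
      ext x
      rw [Subgroup.mem_subgroupOf, hm]
      constructor
      · rintro ⟨_, h3⟩
        exact h3
      · intro h3
        exact ⟨x.2, h3⟩
    rw [h2, fix_ker _ hk0, hk, Finset.mul_sum] at h1
    refine h1.trans (Finset.sum_congr rfl fun j _ => ?_)
    rw [MonoidHom.pow_apply, Units.val_pow_eq_pow_val, ← pow_mul, pow_add, pow_one]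

end

end Pool.Agent.H600.BF
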