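import Mathlib
import Pool.Agent.H600.BF.Lin

/-!
# Rational combinations of induced characters; the sum of the conjugates of a class group character
-/

set_option autoImplicit false
set_option linter.unusedSectionVars false

namespace Pool.Agent.H600.BF

open NumberField Pool.Agent.Q20
open Pool.Agent.Q20.RS hiding Sub

section span
variable {X : Type} {A : Set (X → ℂ)}

theorem multiple_iff {f : X → ℂ} : Multiple f A ↔ f ∈ Submodule.span ℚ A := by
  constructor
  · rintro ⟨m, hm, h⟩
    have h1 : (m • f : X → ℂ) ∈ Submodule.span ℚ A := by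
      have h2 : AddSubgroup.closure A ≤ (Submodule.span ℚ A).toAddSubgroup :=
        (AddSubgroup.closure_le _).2 Submodule.subset_span
      exact h2 h
    have h3 : f = ((m : ℚ)⁻¹) • (m • f) := by
      rw [← Nat.cast_smul_eq_nsmul ℚ, smul_smul, inv_mul_cancel₀ (by exact_mod_cast hm.ne'),
        one_smul]
    rw [h3]
    exact Submodule.smul_mem _ _ h1
  · intro h
    induction h using Submodule.span_induction with
    | mem f hf => exact ⟨1, one_pos, by rw [one_smul]; exact AddSubgroup.subset_closure hf⟩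
    | zero => exact ⟨1, one_pos, by rw [smul_zero]; exact zero_mem _⟩
    | add a b _ _ ha hb =>
      obtain ⟨m, hm, ha⟩ := ha
      obtain ⟨n, hn, hb⟩ := hb
      refine ⟨m * n, Nat.mul_pos hm hn, ?_⟩
      rw [smul_add]
      refine add_mem ?_ ?_
      · rw [mul_comm, mul_smul]
        exact AddSubgroup.nsmul_mem _ ha n
      · rw [mul_smul]
        exact AddSubgroup.nsmul_mem _ hb m
    | smul q a _ ha =>
      obtain ⟨m, hm, ha⟩ := ha
      refine ⟨m * q.den, Nat.mul_pos hm q.den_pos, ?_⟩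
      have h1 : (m * q.den) • (q • a) = q.num • (m • a) := by
        rw [← Nat.cast_smul_eq_nsmul ℚ, ← Nat.cast_smul_eq_nsmul ℚ, ← Int.cast_smul_eq_zsmul ℚ,
          smul_smul, smul_smul]
        congr 1
        push_cast
        rw [mul_assoc, mul_comm (q.den : ℚ) q, Rat.mul_den_eq_num, mul_comm]
      rw [h1]
      exact AddSubgroup.zsmul_mem _ ha _

/-- The conjugate of a function, as a linear map. -/
noncomputable def cj (σ : ℂ ≃+* ℂ) : (X → ℂ) →ₗ[ℚ] (X → ℂ) where
  toFun f := fun g => σ (f g)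
  map_add' a b := funext fun g => map_add σ _ _
  map_smul' q a := funext fun g => by
    change σ (q • a g) = q • σ (a g)
    rw [Rat.smul_def, Rat.smul_def, map_mul, map_ratCast]

end span

section
variable {K : Type} [Field K] [NumberField K]

/-- Induction to `Gal(K̄/K)`, as a linear map. -/
noncomputable def indL (F : RS.Sub K) (hF : FinExt F) :
    (GalF F → ℂ) →ₗ[ℚ] (GalF (base K) → ℂ) where
  toFun χ := ind (base K) F χ
  map_add' a b := by
    have hfd : FiniteDimensional K F := hF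
    have hfin : Finite ((base K).fixingSubgroup ⧸ F.fixingSubgroup.subgroupOf
      (base K).fixingSubgroup) := Pool.Agent.Q246.BI.nn_finite (base K) F
    have : Fintype ((base K).fixingSubgroup ⧸ F.fixingSubgroup.subgroupOf
      (base K).fixingSubgroup) := Fintype.ofFinite _
    funext g
    change ind (base K) F (a + b) g = ind (base K) F a g + ind (base K) F b g
    unfold ind
    rw [finsum_eq_sum_of_fintype, finsum_eq_sum_of_fintype, finsum_eq_sum_of_fintype,
      ← Finset.sum_add_distrib]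
    refine Finset.sum_congr rfl fun x _ => ?_
    split_ifs
    · rfl
    · rw [add_zero]
  map_smul' q a := by
    have hfd : FiniteDimensional K F := hF
    have hfin : Finite ((base K).fixingSubgroup ⧸ F.fixingSubgroup.subgroupOf
      (base K).fixingSubgroup) := Pool.Agent.Q246.BI.nn_finite (base K) F
    have : Fintype ((base K).fixingSubgroup ⧸ F.fixingSubgroup.subgroupOf
      (base K).fixingSubgroup) := Fintype.ofFinite _
    funext g
    change ind (base K) F (q • a) g = q • ind (base K) F a g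
    unfold ind
    rw [finsum_eq_sum_of_fintype, finsum_eq_sum_of_fintype, Finset.smul_sum]
    refine Finset.sum_congr rfl fun x _ => ?_
    split_ifs
    · rfl
    · rw [smul_zero]

lemma cj_ind (σ : ℂ ≃+* ℂ) {F : RS.Sub K} (hF : FinExt F) (χ : GalF F → ℂ) :
    cj σ (indL F hF χ) = indL F hF (cj σ χ) :=
  RL.conj_induced (base K) F hF χ σ

/-- the values of a power -/
noncomputable def pv {F : RS.Sub K} (ψ : Lin F) (a : ℕ) : GalF F → ℂ :=
  fun g => ((ψ.hom g : ℂˣ) : ℂ) ^ a

lemma pv_lpow {F : RS.Sub K} (ψ : Lin F) (a b : ℕ) : pv (lpow ψ a) b = pv ψ (a * b) := by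
  funext g
  change (((ψ.hom ^ a) g : ℂˣ) : ℂ) ^ b = _
  rw [MonoidHom.pow_apply, Units.val_pow_eq_pow_val, ← pow_mul]
  rfl

lemma pv_congr {F : RS.Sub K} (ψ : Lin F) {a b : ℕ} (h : a ≡ b [MOD orderOf ψ.hom]) :
    pv ψ a = pv ψ b := by
  funext g
  have h1 := DFunLike.congr_fun (hpow_congr ψ.hom h) g
  have h2 := congrArg (fun x : ℂˣ => (x : ℂ)) h1
  simp only [MonoidHom.pow_apply, Units.val_pow_eq_pow_val] at h2
  exact h2

/-- the values of a linear character -/
noncomputable def lf {F : RS.Sub K} (ψ : Lin F) : GalF F → ℂ := fun g => ((ψ.hom g : ℂˣ) : ℂ)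

/-- induced functions, with values in the functions -/
noncomputable def ind2 (F F' : RS.Sub K) (χ : GalF F' → ℂ) : GalF F → ℂ := ind F F' χ

lemma ind_trans {F F' : RS.Sub K} (hF : FinExt F) (hF' : FinExt F') (h : F ≤ F') (ψ : Lin F') :
    indL F hF (ind2 F F' (lf ψ)) = indL F' hF' (lf ψ) := by
  refine Pool.Agent.Q20.LG.induced_trans (base K) F F' bot_le h hF hF' (χ := ψ.fn) fun a b => ?_
  change ((ψ.hom (b⁻¹ * a * b) : ℂˣ) : ℂ) = ((ψ.hom a : ℂˣ) : ℂ)
  rw [map_mul, map_mul, map_inv, mul_comm (ψ.hom b)⁻¹, mul_assoc, inv_mul_cancel, mul_one]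

lemma pow_one_of_dvd {G : Type} [Group G] {φ : G →* ℂˣ} {a b : ℕ} (h : φ ^ a = 1) (hab : a ∣ b) :
    φ ^ b = 1 := by
  obtain ⟨c, rfl⟩ := hab
  rw [← hpow_mul, h]
  apply MonoidHom.ext
  intro u
  rw [MonoidHom.pow_apply, MonoidHom.one_apply, one_pow]

variable {M : ℕ} {S : Finset ℕ} {L : RS.Sub K} {D n : ℕ} [NeZero n] (hDn : D ∣ n)

/-- the sum of the conjugates of `ψ` over `ℚ(ζ_D)` -/
noncomputable def cs {F : RS.Sub K} (ψ : Lin F) : GalF F → ℂ :=
  ∑ a : (ZMod.unitsMap hDn).ker, pv ψ ((a : (ZMod n)ˣ) : ZMod n).val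

lemma cs_conj {F : RS.Sub K} (ψ : Lin F) (hψ : orderOf ψ.hom ∣ n) {b : ℕ}
    (hb : b.Coprime (orderOf ψ.hom)) (hb1 : b ≡ 1 [MOD Nat.gcd (orderOf ψ.hom) D]) :
    cs hDn (lpow ψ b) = cs hDn ψ := by
  obtain ⟨c, hc⟩ := SF.exists_unit hDn hψ hb hb1
  refine Fintype.sum_equiv (Equiv.mulLeft c) _ _ fun a => ?_
  rw [pv_lpow]
  apply pv_congr
  change _ ≡ (((c * a : (ZMod.unitsMap hDn).ker) : (ZMod n)ˣ) : ZMod n).val [MOD orderOf ψ.hom]
  rw [Subgroup.coe_mul, Units.val_mul, ZMod.val_mul]
  refine (Nat.ModEq.mul_right _ hc.symm).trans ?_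
  exact ((Nat.mod_modEq _ n).of_dvd hψ).symm

/-- **The key theorem.** -/
theorem key (N : Submodule ℚ (GalF (base K) → ℂ))
    (hN : ∀ (F : RS.Sub K) (hF : FinExt F) (ψ : Lin F), ClassGroup M S L ψ → ψ.hom ^ D = 1 →
      indL F hF (lf ψ) ∈ N) {F : RS.Sub K} (hF : FinExt F) (d : ℕ) :
    ∀ ψ : Lin F, ClassGroup M S L ψ → orderOf ψ.hom = d → ψ.hom ^ n = 1 →
      indL F hF (cs hDn ψ) ∈ N := by
  have hn : n ≠ 0 := NeZero.ne n
  have hD0 : D ≠ 0 := fun h => hn (Nat.eq_zero_of_zero_dvd (h ▸ hDn))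
  induction d using Nat.strong_induction_on with
  | _ d ih =>
    intro ψ hcl hψd hψn
    have hdn : d ∣ n := by
      rw [← hψd]
      exact orderOf_dvd_of_pow_eq_one hψn
    have hd0 : d ≠ 0 := fun h => hn (Nat.eq_zero_of_zero_dvd (h ▸ hdn))
    set g := Nat.gcd d D with hg
    have hg0 : g ≠ 0 := Nat.gcd_ne_zero_left hd0
    obtain ⟨k, hk⟩ : g ∣ d := Nat.gcd_dvd_left d D
    have hk0 : 0 < k := by
      rcases Nat.eq_zero_or_pos k with h | h
      · rw [h, mul_zero] at hk
        exact absurd hk hd0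
      · exact h
    -- the sum over `a` of the relations for `ψ ^ a`
    have h1 : ∑ j ∈ Finset.range k, indL F hF (cs hDn (lpow ψ (1 + g * j))) ∈ N := by
      rw [← map_sum]
      unfold cs
      rw [Finset.sum_comm, map_sum]
      refine Submodule.sum_mem _ fun a _ => ?_
      have h2 : ((a : (ZMod n)ˣ) : ZMod n).val.Coprime n := ZMod.val_coe_unit_coprime _
      have h3 : orderOf (ψ.hom ^ ((a : (ZMod n)ˣ) : ZMod n).val) = d := by
        rw [← hψd]
        apply Nat.Coprime.orderOf_pow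
        rw [hψd]
        exact (Nat.Coprime.coprime_dvd_right hdn h2).symm
      obtain ⟨F', hle, hF', h4, h5⟩ := exists_rel hF (lpow ψ ((a : (ZMod n)ˣ) : ZMod n).val)
        hg0 (k := k) (h3 ▸ hk.symm)
      have h6 : (∑ j ∈ Finset.range k, pv (lpow ψ (1 + g * j)) ((a : (ZMod n)ˣ) : ZMod n).val)
          = ind2 F F' (lf (lres hle (lpow ψ ((a : (ZMod n)ˣ) : ZMod n).val))) := by
        funext u
        refine Eq.trans ?_ (h5 u).symm
        rw [Finset.sum_apply]
        refine Finset.sum_congr rfl fun j _ => ?_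
        rw [pv_lpow, mul_comm, ← pv_lpow]
        rfl
      rw [h6, ind_trans hF hF' hle]
      refine hN F' hF' _ (cl_res (cl_pow hcl _) hF' hle) ?_
      exact pow_one_of_dvd h4 (Nat.gcd_dvd_right d D)
    -- the summands
    have h5 : ∀ j ∈ Finset.range k, ¬ (1 + g * j).Coprime d →
        indL F hF (cs hDn (lpow ψ (1 + g * j))) ∈ N := by
      intro j _ hj
      refine ih (orderOf (ψ.hom ^ (1 + g * j))) ?_ _ (cl_pow hcl _) rfl ?_
      · rw [orderOf_pow' ψ.hom (by omega), hψd]
        have h6 : Nat.gcd d (1 + g * j) ≠ 1 := fun h => hj (Nat.Coprime.symm h)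
        have h7 : 0 < Nat.gcd d (1 + g * j) := Nat.gcd_pos_of_pos_left _ (Nat.pos_of_ne_zero hd0)
        exact Nat.div_lt_self (Nat.pos_of_ne_zero hd0) (by omega)
      · change (ψ.hom ^ (1 + g * j)) ^ n = 1
        rw [hpow_mul, mul_comm, ← hpow_mul, hψn]
        apply MonoidHom.ext
        intro u
        rw [MonoidHom.pow_apply, MonoidHom.one_apply, one_pow]
    have h6 : ∀ j ∈ Finset.range k, (1 + g * j).Coprime d →
        indL F hF (cs hDn (lpow ψ (1 + g * j))) = indL F hF (cs hDn ψ) := by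
      intro j _ hj
      rw [cs_conj hDn ψ (by rw [hψd]; exact hdn) (by rw [hψd]; exact hj)]
      rw [hψd]
      change (1 + g * j) % g = 1 % g
      rw [Nat.add_mul_mod_self_left]
    rw [← Finset.sum_filter_add_sum_filter_not (Finset.range k) fun j => (1 + g * j).Coprime d]
      at h1
    have h7 := (Submodule.add_mem_iff_left N (Submodule.sum_mem N fun j hj =>
      h5 j (Finset.mem_filter.1 hj).1 (Finset.mem_filter.1 hj).2)).1 h1
    rw [Finset.sum_congr rfl fun j hj => h6 j (Finset.mem_filter.1 hj).1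
      (Finset.mem_filter.1 hj).2, Finset.sum_const, ← Nat.cast_smul_eq_nsmul ℚ] at h7
    refine (Submodule.smul_mem_iff N ?_).1 h7
    rw [Nat.cast_ne_zero]
    refine (Finset.card_pos.mpr ⟨0, ?_⟩).ne'
    rw [Finset.mem_filter, Finset.mem_range]
    exact ⟨hk0, by rw [mul_zero, add_zero]; exact Nat.coprime_one_left d⟩

end

end Pool.Agent.H600.BF
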