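import Mathlib
import Pool.Agent.H600.BF.Key

/-!
# Virtual characters with values in a given field
-/

set_option autoImplicit false
set_option linter.unusedSectionVars false

namespace Pool.Agent.H600.BF

open NumberField Pool.Agent.Q20
open Pool.Agent.Q20.RS hiding Sub
open Pool.Agent.H600.SF (zeta zeta_prim zeta_congr fix_adjoin mem_ker_iff exists_aut)

section
variable {K : Type} [Field K] [NumberField K]

/-- **The basic characters** of `Gal(K̄/F)` for `s, ε, M, S, L`, for the order `D` and the field `F₀`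
of values -/
inductive Basic (s : ℂˣ) (ε : Gal(AlgebraicClosure K/K) →* ℂˣ) (M : ℕ) (S : Finset ℕ) (L : RS.Sub K)
    (D : ℕ) (F₀ : IntermediateField ℚ ℂ) {F : RS.Sub K} : Fn F → Prop
  | trivial : Basic s ε M S L D F₀ (fun _ => 1)
  | onePrime (ψ : Lin F) : OnePrime s ε S ψ → Basic s ε M S L D F₀ ψ.fn
  | classGroup (ψ : Lin F) : ClassGroup M S L ψ → ψ.hom ^ D = 1 →
      Basic s ε M S L D F₀ (SF.tr F₀ D ψ.hom)

/-- the characters of `Gal(K̄/K)` induced by the basic characters -/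
def IndBasic (s : ℂˣ) (ε : Gal(AlgebraicClosure K/K) →* ℂˣ) (M : ℕ) (S : Finset ℕ) (L : RS.Sub K)
    (D : ℕ) (F₀ : IntermediateField ℚ ℂ) : Set (Fn (base K)) :=
  {f | ∃ (F : RS.Sub K) (χ : Fn F), FinExt F ∧ Basic s ε M S L D F₀ χ ∧ f = ind (base K) F χ}

variable {s : ℂˣ} {ε : Gal(AlgebraicClosure K/K) →* ℂˣ} {M : ℕ} {S : Finset ℕ} {L : RS.Sub K}
  {D : ℕ} {F₀ : IntermediateField ℚ ℂ}

/-- conjugates of linear characters -/
noncomputable def lconj {F : RS.Sub K} (τ : ℂ ≃+* ℂ) (ψ : Lin F) : Lin F where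
  hom := (Units.map (τ : ℂ →+* ℂ).toMonoidHom).comp ψ.hom
  smooth := by
    obtain ⟨E, hE, hs⟩ := ψ.smooth
    exact ⟨E, hE, fun g hg => by rw [MonoidHom.comp_apply, hs g hg, map_one]⟩

lemma lconj_fn {F : RS.Sub K} (τ : ℂ ≃+* ℂ) (ψ : Lin F) : lf (lconj τ ψ) = cj τ (lf ψ) := rfl

lemma sign_cases {z : ℂˣ} (hz : z * z = 1) : z = 1 ∨ z = -1 := by
  have h4 : ((z : ℂ) - 1) * ((z : ℂ) + 1) = 0 := by
    have h5 := congrArg Units.val hz
    rw [Units.val_mul, Units.val_one] at h5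
    linear_combination h5
  rcases mul_eq_zero.1 h4 with h5 | h5
  · exact Or.inl (Units.ext (sub_eq_zero.1 h5))
  · refine Or.inr (Units.ext ?_)
    rw [Units.val_neg, Units.val_one]
    exact eq_neg_of_add_eq_zero_left h5

lemma map_sign (τ : ℂ ≃+* ℂ) {z : ℂˣ} (hz : z = 1 ∨ z = -1) :
    Units.map (τ : ℂ →+* ℂ).toMonoidHom z = z := by
  apply Units.ext
  change τ (z : ℂ) = z
  rcases hz with rfl | rfl
  · rw [Units.val_one, map_one]
  · rw [Units.val_neg, Units.val_one, map_neg, map_one]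

lemma onePrime_conj (hs : s = 1 ∨ s = -1) (hε : Sign s ε) {F : RS.Sub K} {ψ : Lin F}
    (h : OnePrime s ε S ψ) (τ : ℂ ≃+* ℂ) : OnePrime s ε S (lconj τ ψ) where
  real := h.real
  parity := fun c hc => by
    change Units.map (τ : ℂ →+* ℂ).toMonoidHom (ψ.hom c) = s
    rw [h.parity c hc, map_sign τ hs]
  bad := by
    obtain ⟨p, hp, h1⟩ := h.bad
    have h2 : ∀ g : GalF F, ε g * ψ.hom g = 1 → ε g * (lconj τ ψ).hom g = 1 := by
      intro g hg
      have h3 : ψ.hom g = ε g := by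
        have h4 := hε.sq g
        rw [← hg] at h4
        exact (mul_left_cancel h4).symm
      change ε g * Units.map (τ : ℂ →+* ℂ).toMonoidHom (ψ.hom g) = 1
      rw [h3, map_sign τ (sign_cases (hε.sq g)), hε.sq]
    exact ⟨p, hp, fun q hq hqp w hw g => ⟨fun hg => h2 g ((h1 q hq hqp w hw g).1 hg),
      fun hqS hg => h2 g ((h1 q hq hqp w hw g).2 hqS hg)⟩⟩

/-- induced characters of the three kinds, the class group characters being of order dividing `n` -/
def AA (s : ℂˣ) (ε : Gal(AlgebraicClosure K/K) →* ℂˣ) (M : ℕ) (S : Finset ℕ) (L : RS.Sub K)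
    (n : ℕ) : Set (GalF (base K) → ℂ) :=
  {f | ∃ (F : RS.Sub K) (hF : FinExt F) (ψ : Lin F), (ψ.hom = 1 ∨
    (ClassGroup M S L ψ ∧ ψ.hom ^ n = 1) ∨ OnePrime s ε S ψ) ∧ f = indL F hF (lf ψ)}

lemma AA_mono {n n' : ℕ} (h : n ∣ n') : AA s ε M S L n ⊆ AA s ε M S L n' := by
  rintro f ⟨F, hF, ψ, h1, rfl⟩
  refine ⟨F, hF, ψ, ?_, rfl⟩
  rcases h1 with h1 | ⟨h1, h2⟩ | h1
  · exact Or.inl h1
  · exact Or.inr (Or.inl ⟨h1, pow_one_of_dvd h2 h⟩)
  · exact Or.inr (Or.inr h1)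

/-- the same set as functions -/
def IK (s : ℂˣ) (ε : Gal(AlgebraicClosure K/K) →* ℂˣ) (M : ℕ) (S : Finset ℕ) (L : RS.Sub K) :
    Set (GalF (base K) → ℂ) := IndKind s ε M S L

/-- the same set as functions -/
def IB (s : ℂˣ) (ε : Gal(AlgebraicClosure K/K) →* ℂˣ) (M : ℕ) (S : Finset ℕ) (L : RS.Sub K)
    (D : ℕ) (F₀ : IntermediateField ℚ ℂ) : Set (GalF (base K) → ℂ) := IndBasic s ε M S L D F₀

lemma exists_n (hD : D ≠ 0) {f : GalF (base K) → ℂ}
    (h : f ∈ Submodule.span ℚ (IK s ε M S L)) :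
    ∃ n : ℕ, n ≠ 0 ∧ D ∣ n ∧ f ∈ Submodule.span ℚ (AA s ε M S L n) := by
  induction h using Submodule.span_induction with
  | mem f hf =>
    obtain ⟨F, ψ, hF, h1, rfl⟩ := hf
    refine ⟨D * orderOf ψ.hom, Nat.mul_ne_zero hD (order_pos ψ).ne', Dvd.intro _ rfl,
      Submodule.subset_span ⟨F, hF, ψ, ?_, rfl⟩⟩
    rcases h1 with h1 | h1 | h1
    · exact Or.inl h1
    · exact Or.inr (Or.inl ⟨h1, pow_one_of_dvd (pow_orderOf_eq_one ψ.hom) (Dvd.intro_left _ rfl)⟩)
    · exact Or.inr (Or.inr h1)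
  | zero => exact ⟨D, hD, dvd_rfl, zero_mem _⟩
  | add a b _ _ ha hb =>
    obtain ⟨n, hn, hDn, ha⟩ := ha
    obtain ⟨n', hn', hDn', hb⟩ := hb
    exact ⟨n * n', Nat.mul_ne_zero hn hn', hDn.mul_right _, add_mem
      (Submodule.span_mono (AA_mono (Dvd.intro _ rfl)) ha)
      (Submodule.span_mono (AA_mono (Dvd.intro_left _ rfl)) hb)⟩
  | smul q a _ ha =>
    obtain ⟨n, hn, hDn, ha⟩ := ha
    exact ⟨n, hn, hDn, Submodule.smul_mem _ _ ha⟩

lemma fn_one {F : RS.Sub K} {ψ : Lin F} (h : ψ.hom = 1) : lf ψ = fun _ => 1 := by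
  funext g
  change ((ψ.hom g : ℂˣ) : ℂ) = 1
  rw [h]
  rfl

lemma cj_one {X : Type} (τ : ℂ ≃+* ℂ) : cj τ (fun _ : X => (1 : ℂ)) = fun _ => 1 :=
  funext fun _ => map_one τ

/-- Step 1. -/
lemma step1 (hs : s = 1 ∨ s = -1) (hε : Sign s ε) (hD : D ≠ 0) {n : ℕ} (hn : n ≠ 0) (hDn : D ∣ n)
    {f : GalF (base K) → ℂ} (hf : f ∈ Submodule.span ℚ (AA s ε M S L n))
    (hv : ∀ σ : ℂ ≃+* ℂ, σ (zeta D) = zeta D → cj σ f = f) :
    f ∈ Submodule.span ℚ (AA s ε M S L D) := by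
  have hne : NeZero n := ⟨hn⟩
  choose τ hτ using fun a : (ZMod.unitsMap hDn).ker =>
    exists_aut n hn ((a : (ZMod n)ˣ) : ZMod n).val (ZMod.val_coe_unit_coprime _)
  let P : (GalF (base K) → ℂ) →ₗ[ℚ] (GalF (base K) → ℂ) := ∑ a, cj (τ a)
  have hP : ∀ x, P x = ∑ a, cj (τ a) x := fun x => LinearMap.sum_apply _ _ _
  set N : Submodule ℚ (GalF (base K) → ℂ) := Submodule.span ℚ (AA s ε M S L D) with hN
  have h1 : Submodule.span ℚ (AA s ε M S L n) ≤ N.comap P := by
    rw [Submodule.span_le]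
    rintro f ⟨F, hF, ψ, h1, rfl⟩
    rw [SetLike.mem_coe, Submodule.mem_comap, hP]
    rcases h1 with h1 | ⟨h1, h2⟩ | h1
    · refine Submodule.sum_mem _ fun a _ => Submodule.subset_span ⟨F, hF, ψ, Or.inl h1, ?_⟩
      rw [cj_ind, fn_one h1, cj_one]
    · have h3 := key hDn N (fun F' hF' ψ' hψ' hψD => Submodule.subset_span
        ⟨F', hF', ψ', Or.inr (Or.inl ⟨hψ', hψD⟩), rfl⟩) hF (orderOf ψ.hom) ψ h1 rfl h2
      unfold cs at h3
      rw [map_sum] at h3
      refine (congrArg (· ∈ N) (Finset.sum_congr rfl fun a _ => ?_)).mpr h3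
      rw [cj_ind]
      congr 1
      funext g
      refine hτ a _ ?_
      have h4 := DFunLike.congr_fun h2 g
      have h5 := congrArg (fun x : ℂˣ => (x : ℂ)) h4
      exact h5
    · refine Submodule.sum_mem _ fun a _ => Submodule.subset_span
        ⟨F, hF, lconj (τ a) ψ, Or.inr (Or.inr (onePrime_conj hs hε h1 _)), ?_⟩
      rw [cj_ind, lconj_fn]
  have h2 : P f ∈ N := h1 hf
  have h3 : P f = (Fintype.card (ZMod.unitsMap hDn).ker : ℚ) • f := by
    rw [hP, Nat.cast_smul_eq_nsmul, ← Finset.card_univ, ← Finset.sum_const]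
    refine Finset.sum_congr rfl fun a _ => hv (τ a) ?_
    have h4 : zeta D ^ n = 1 := by
      obtain ⟨c, rfl⟩ := hDn
      rw [pow_mul, (zeta_prim hD).pow_eq_one, one_pow]
    rw [hτ a _ h4]
    have h5 := (mem_ker_iff hDn (a : (ZMod n)ˣ)).mp a.2
    rw [zeta_congr hD h5, pow_one]
  rw [h3] at h2
  exact (Submodule.smul_mem_iff N (by exact_mod_cast Fintype.card_pos.ne')).1 h2

/-- Step 2. -/
lemma step2 (hs : s = 1 ∨ s = -1) (hε : Sign s ε) (hD : D ≠ 0)
    {f : GalF (base K) → ℂ} (hf : f ∈ Submodule.span ℚ (AA s ε M S L D))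
    (hv : ∀ σ : ℂ ≃+* ℂ, (∀ x ∈ F₀, σ x = x) → cj σ f = f) :
    f ∈ Submodule.span ℚ (IB s ε M S L D F₀) := by
  classical
  have hne : NeZero D := ⟨hD⟩
  have hfin : Fintype (SF.conj F₀ D) := Fintype.ofFinite _
  choose τ hτF hτ using fun h : SF.conj F₀ D => h.2
  let P : (GalF (base K) → ℂ) →ₗ[ℚ] (GalF (base K) → ℂ) := ∑ a, cj (τ a)
  have hP : ∀ x, P x = ∑ a, cj (τ a) x := fun x => LinearMap.sum_apply _ _ _
  set N : Submodule ℚ (GalF (base K) → ℂ) :=
    Submodule.span ℚ (IB s ε M S L D F₀) with hN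
  have h1 : Submodule.span ℚ (AA s ε M S L D) ≤ N.comap P := by
    rw [Submodule.span_le]
    rintro f ⟨F, hF, ψ, h1, rfl⟩
    rw [SetLike.mem_coe, Submodule.mem_comap, hP]
    rcases h1 with h1 | ⟨h1, h2⟩ | h1
    · refine Submodule.sum_mem _ fun a _ => Submodule.subset_span
        ⟨F, fun _ => 1, hF, Basic.trivial, ?_⟩
      rw [cj_ind, fn_one h1, cj_one]
      rfl
    · have h3 : ∑ a, cj (τ a) (indL F hF (lf ψ)) = indL F hF (SF.tr F₀ D ψ.hom) := by
        have h4 : SF.tr F₀ D ψ.hom = ∑ a, cj (τ a) (lf ψ) := by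
          funext g
          rw [SF.tr, ← finsum_set_coe_eq_finsum_mem, finsum_eq_sum_of_fintype, Finset.sum_apply]
          refine Finset.sum_congr rfl fun h _ => ?_
          change _ = τ h ((ψ.hom g : ℂˣ) : ℂ)
          have h5 : ((ψ.hom g : ℂˣ) : ℂ) ^ D = 1 := by
            have h6 := congrArg (fun x : ℂˣ => (x : ℂ)) (DFunLike.congr_fun h2 g)
            exact h6
          obtain ⟨i, -, hi⟩ := (zeta_prim hD).eq_pow_of_pow_eq_one h5
          rw [← hi, map_pow, hτ h, ← pow_mul, ← pow_mul, mul_comm]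
        rw [h4, map_sum]
        exact Finset.sum_congr rfl fun a _ => cj_ind _ _ _
      rw [h3]
      exact Submodule.subset_span ⟨F, _, hF, Basic.classGroup ψ h1 h2, rfl⟩
    · refine Submodule.sum_mem _ fun a _ => Submodule.subset_span
        ⟨F, (lconj (τ a) ψ).fn, hF, Basic.onePrime _ (onePrime_conj hs hε h1 _), ?_⟩
      rw [cj_ind]
      rfl
  have h2 : P f ∈ N := h1 hf
  have h3 : P f = (Fintype.card (SF.conj F₀ D) : ℚ) • f := by
    rw [hP, Nat.cast_smul_eq_nsmul, ← Finset.card_univ, ← Finset.sum_const]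
    exact Finset.sum_congr rfl fun a _ => hv (τ a) (hτF a)
  rw [h3] at h2
  refine (Submodule.smul_mem_iff N ?_).1 h2
  rw [Nat.cast_ne_zero]
  refine (Fintype.card_pos_iff.mpr ⟨⟨1, RingEquiv.refl ℂ, fun x _ => rfl, ?_⟩⟩).ne'
  change zeta D = zeta D ^ ((1 : (ZMod D)ˣ) : ZMod D).val
  rw [Units.val_one]
  have h6 : (1 : ZMod D).val ≡ 1 [MOD D] := by
    rw [← ZMod.natCast_eq_natCast_iff, ZMod.natCast_val, ZMod.cast_id, Nat.cast_one]
  rw [zeta_congr hD h6, pow_one]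

/-- **The induction theorem for virtual characters with values in a field.** -/
theorem ind_basic [IsTotallyReal K] (hs : s = 1 ∨ s = -1) (hε : Sign s ε) (hM : 0 < M)
    (hL : FinExt L) (hD : D ≠ 0) (hF₀ : F₀ ≤ IntermediateField.adjoin ℚ {zeta D})
    {f : Fn (base K)} (hf : Virt f) (hv : ∀ g, f g ∈ F₀) :
    Multiple f (IndBasic s ε M S L D F₀) := by
  refine (multiple_iff (X := GalF (base K)) (A := IB s ε M S L D F₀)).2 ?_
  obtain ⟨n, hn, hDn, h1⟩ := exists_n hD ((multiple_iff (X := GalF (base K))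
    (A := IK s ε M S L)).1 ((RS.induction s hs).2 ε hε M S L hM hL f hf))
  refine step2 hs hε hD (step1 hs hε hD hn hDn h1 fun σ hσ => ?_) fun σ hσ => ?_
  · exact funext fun g => fix_adjoin hσ (hF₀ (hv g))
  · exact funext fun g => hσ _ (hv g)

/-- the values of an induced character -/
lemma ind_val {F : RS.Sub K} (hF : FinExt F) {χ : Fn F} (hv : ∀ g, χ g ∈ F₀) (g : GalF (base K)) :
    ind (base K) F χ g ∈ F₀ := by
  have hfd : FiniteDimensional K F := hF
  have hfin : Finite ((base K).fixingSubgroup ⧸ F.fixingSubgroup.subgroupOf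
    (base K).fixingSubgroup) := Pool.Agent.Q246.BI.nn_finite (base K) F
  have : Fintype ((base K).fixingSubgroup ⧸ F.fixingSubgroup.subgroupOf
    (base K).fixingSubgroup) := Fintype.ofFinite _
  unfold ind
  rw [finsum_eq_sum_of_fintype]
  refine sum_mem fun x _ => ?_
  split_ifs
  · exact hv _
  · exact zero_mem _

/-- the basic characters are characters -/
lemma Basic.char (hD : D ≠ 0) {F : RS.Sub K} (hF : FinExt F) {χ : Fn F}
    (h : Basic s ε M S L D F₀ χ) : RS.Char χ := by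
  classical
  cases h with
  | trivial =>
    have h1 := Pool.Agent.Q20.TR.lin_isCharacter F (one F).hom (one F).smooth
    exact h1
  | onePrime ψ _ => exact Pool.Agent.Q20.TR.lin_isCharacter F ψ.hom ψ.smooth
  | classGroup ψ _ _ =>
    have hne : NeZero D := ⟨hD⟩
    have hfin : Fintype (SF.conj F₀ D) := Fintype.ofFinite _
    have h1 : SF.tr F₀ D ψ.hom = ∑ h : SF.conj F₀ D, lf (lpow ψ ((h : (ZMod D)ˣ) : ZMod D).val) := by
      funext g
      rw [SF.tr, ← finsum_set_coe_eq_finsum_mem, finsum_eq_sum_of_fintype, Finset.sum_apply]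
      refine Finset.sum_congr rfl fun h _ => ?_
      change _ = (((ψ.hom ^ _) g : ℂˣ) : ℂ)
      rw [MonoidHom.pow_apply, Units.val_pow_eq_pow_val]
    have h2 : ∀ t : Finset (SF.conj F₀ D),
        RS.Char (F := F) (∑ h ∈ t, lf (lpow ψ ((h : (ZMod D)ˣ) : ZMod D).val) : GalF F → ℂ) := by
      intro t
      induction t using Finset.induction_on with
      | empty =>
        rw [Finset.sum_empty]
        exact RL.zero_character F
      | insert a t ha ih =>
        rw [Finset.sum_insert ha]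
        exact RL.plus_char hF (Pool.Agent.Q20.TR.lin_isCharacter F _ (lpow ψ _).smooth) ih
    rw [h1]
    exact h2 _

end

end Pool.Agent.H600.BF
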