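import Mathlib
import Pool.Agent.H600.BF.Main

/-!
# Product formulas for general characters
-/

set_option autoImplicit false
set_option linter.unusedSectionVars false

namespace Pool.Agent.H600.BF

open NumberField IsDedekindDomain Pool.Agent.Q20 Pool.Agent.Q20.GD
open Pool.Agent.Q20.RS hiding Sub Factor
open Pool.Agent.Q246.BI (induced)
open Pool.Agent.Q20.TR (bt)

/-- a function on `Gal(K̄/F)`, `F` finite over `K`, with an exponent -/
structure Factor (K : Type) [Field K] : Type where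
  /-- the field -/
  F : RS.Sub K
  fin : FinExt F
  /-- the function -/
  χ : Fn F
  /-- the exponent -/
  e : ℤ

section
variable {K : Type} [Field K] [NumberField K]

/-- the induced function -/
noncomputable def tot (F : RS.Sub K) (χ : Fn F) : GalF (base K) → ℂ := ind (base K) F χ

/-- the induced function -/
noncomputable def Factor.ind (t : Factor K) : GalF (base K) → ℂ := tot t.F t.χ

/-- **Product formulas at a level.** -/
theorem prod_level (ℓ : GLv K) (l : List (Factor K))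
    (hl : ∀ t ∈ l, t.F ≤ ℓ.N ∧ ∃ (n : ℕ)
      (ρ : Representation ℂ (ℓ.N ≃ₐ[sb ℓ.N t.F] ℓ.N) (Fin n → ℂ)), HasChar ρ t.χ)
    (f : (ℓ.N ≃ₐ[K] ℓ.N) → ℂ)
    (hf : ∀ g, (l.map fun t => t.e • t.ind).sum g = f (rN ℓ.N g)) :
    ∃ h : f ∈ PP ℓ.D, val ℓ.D ⟨f, h⟩ = (l.map fun t => ℓ.A t.χ ^ t.e).prod ∧
      ∀ s : ℂ, 1 < s.re → artinLS ℓ.D.T f s = (l.map fun t => ℓ.L t.χ s ^ t.e).prod := by
  induction l generalizing f with
  | nil =>
    have h0 : f = 0 := by
      funext y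
      obtain ⟨g, rfl⟩ := rN_surjective (N := ℓ.N) y
      rw [← hf g]
      rfl
    subst h0
    refine ⟨zero_mem _, ?_, fun s hs => ?_⟩
    · exact val_zero ℓ.D
    · rw [artinLS_zero ℓ.D.T hs]
      rfl
  | cons t l ih =>
    obtain ⟨hle, n, ρ, hρ⟩ := hl t List.mem_cons_self
    obtain ⟨f₁, hf₁, e1, e2, e3⟩ := ℓ.exists_fn hle hρ
    obtain ⟨h3, e4, e5⟩ := ih (fun t' ht' => hl t' (List.mem_cons_of_mem _ ht')) (f - t.e • f₁)
      (fun g => by
        have h4 := hf g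
        rw [List.map_cons, List.sum_cons, Pi.add_apply] at h4
        have e1' : t.ind g = f₁ (rN ℓ.N g) := e1 g
        rw [Pi.sub_apply, ← h4, Pi.smul_apply, Pi.smul_apply, ← e1', add_sub_cancel_left])
    have h5 : f = t.e • f₁ + (f - t.e • f₁) := (add_sub_cancel _ _).symm
    have h6 : t.e • f₁ ∈ PP ℓ.D := AddSubgroup.zsmul_mem _ hf₁ _
    have h7 : f ∈ PP ℓ.D := by
      rw [h5]
      exact add_mem h6 h3
    refine ⟨h7, ?_, fun s hs => ?_⟩
    · have h8 : (⟨f, h7⟩ : PP ℓ.D) = t.e • ⟨f₁, hf₁⟩ + ⟨f - t.e • f₁, h3⟩ := Subtype.ext h5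
      rw [h8, GD.val_add, GD.val_zsmul, e4, List.map_cons, List.prod_cons, e2]
    · conv_lhs => rw [h5]
      rw [artinLS_add _ _ _ hs, artinLS_zsmul _ _ _ hs, e5 s hs, List.map_cons, List.prod_cons,
        e3 s hs]

/-- the characters exist at all large levels -/
theorem exists_all (l : List (Factor K)) (hl : ∀ t ∈ l, RS.Char t.χ) :
    ∃ N₀ : IntermediateField K (AlgebraicClosure K), FiniteDimensional K N₀ ∧
      ∀ (N : IntermediateField K (AlgebraicClosure K)) [FiniteDimensional K N] [Normal K N],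
        N₀ ≤ N → ∀ t ∈ l, t.F ≤ N ∧ ∃ (n : ℕ)
          (ρ : Representation ℂ (N ≃ₐ[sb N t.F] N) (Fin n → ℂ)), HasChar ρ t.χ := by
  induction l with
  | nil => exact ⟨⊥, inferInstance, fun N _ _ _ t ht => absurd ht (List.not_mem_nil)⟩
  | cons t l ih =>
    obtain ⟨N₁, hN₁, h1⟩ := ih fun t' ht' => hl t' (List.mem_cons_of_mem _ ht')
    obtain ⟨N₂, hN₂, hF, h2⟩ := exists_glev t.fin (hl t List.mem_cons_self)
    refine ⟨N₁ ⊔ N₂, IntermediateField.finiteDimensional_sup N₁ N₂, fun N _ _ hN t' ht' => ?_⟩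
    rcases List.mem_cons.1 ht' with rfl | ht'
    · exact ⟨hF.trans (le_sup_right.trans hN), h2 N (le_sup_right.trans hN)⟩
    · exact h1 N (le_sup_left.trans hN) t' ht'

/-- **Product formulas.** -/
theorem prod_of {F : RS.Sub K} (hF : FinExt F) {χ : Fn F} (hχ : RS.Char χ) (m : ℕ)
    {l : List (Factor K)} (hl : ∀ t ∈ l, RS.Char t.χ)
    (hA : (l.map fun t => t.e • t.ind).sum = m • tot F χ) :
    ∃ N₀ : RS.Sub K, FinExt N₀ ∧
      ∀ ℓ : GLv K, N₀ ≤ ℓ.N →
        (∀ s : ℂ, 1 < s.re → ℓ.L χ s ^ m = (l.map fun t => ℓ.L t.χ s ^ t.e).prod) ∧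
        ℓ.A χ ^ m = (l.map fun t => ℓ.A t.χ ^ t.e).prod := by
  obtain ⟨N₁, hN₁, hF₁, h1⟩ := exists_glev hF hχ
  obtain ⟨N₂, hN₂, h2⟩ := exists_all l hl
  refine ⟨N₁ ⊔ N₂, IntermediateField.finiteDimensional_sup N₁ N₂, fun ℓ hℓ => ?_⟩
  obtain ⟨n, ρ, hρ⟩ := h1 ℓ.N (le_sup_left.trans hℓ)
  obtain ⟨f, hf, e1, e2, e3⟩ := ℓ.exists_fn (hF₁.trans (le_sup_left.trans hℓ)) hρ
  obtain ⟨h3, e4, e5⟩ := prod_level ℓ l (h2 ℓ.N (le_sup_right.trans hℓ)) (m • f) fun g => by
    rw [hA, Pi.smul_apply, Pi.smul_apply]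
    exact congrArg (fun z : ℂ => m • z) (e1 g)
  refine ⟨fun s hs => ?_, ?_⟩
  · rw [e3 s hs, ← artinLS_nsmul _ _ _ hs, e5 s hs]
  · rw [e2, ← e4, ← GD.val_nsmul]
    rfl

/-- elements of the group generated by induced functions are sums over lists -/
theorem exists_facs {P : ∀ F : RS.Sub K, Fn F → Prop} {f : GalF (base K) → ℂ}
    (hf : f ∈ AddSubgroup.closure {f : GalF (base K) → ℂ | ∃ (F : RS.Sub K) (χ : Fn F),
      FinExt F ∧ P F χ ∧ f = tot F χ}) :
    ∃ l : List (Factor K), (∀ t ∈ l, P t.F t.χ) ∧ (l.map fun t => t.e • t.ind).sum = f := by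
  induction hf using AddSubgroup.closure_induction with
  | mem f hf =>
    obtain ⟨F, χ, hF, hP, rfl⟩ := hf
    refine ⟨[⟨F, hF, χ, 1⟩], fun t ht => ?_, ?_⟩
    · rw [List.mem_singleton] at ht
      subst ht
      exact hP
    · rw [List.map_singleton, List.sum_singleton, one_smul]
      rfl
  | zero => exact ⟨[], fun t ht => absurd ht (List.not_mem_nil), rfl⟩
  | add a b _ _ ha hb =>
    obtain ⟨l, hl, rfl⟩ := ha
    obtain ⟨l', hl', rfl⟩ := hb
    refine ⟨l ++ l', fun t ht => ?_, by rw [List.map_append, List.sum_append]⟩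
    rcases List.mem_append.1 ht with ht | ht
    · exact hl t ht
    · exact hl' t ht
  | neg a _ ha =>
    obtain ⟨l, hl, rfl⟩ := ha
    refine ⟨l.map fun t => ⟨t.F, t.fin, t.χ, -t.e⟩, fun t ht => ?_, ?_⟩
    · obtain ⟨t', ht', rfl⟩ := List.mem_map.1 ht
      exact hl t' ht'
    · clear * -
      rw [List.map_map]
      induction l with
      | nil => exact neg_zero.symm
      | cons t l ih =>
        rw [List.map_cons, List.map_cons, List.sum_cons, List.sum_cons, neg_add, ih]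
        congr 1
        exact neg_smul _ _

end

end Pool.Agent.H600.BF
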